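import Pool.Agent.H751.AB.Mag

/-! Coefficients of products of syllables (`S_COEF` of helper751). -/

set_option autoImplicit false

namespace Pool.Agent.H675.AB

open Pool.Agent.H751.AB NC

variable {ι : Type}

/-- the elements whose series has only the letter `i` -/
def only (i : ι) : Subgroup (FreeGroup ι) where
  carrier := {x | ∀ w : List ι, (∃ a ∈ w, a ≠ i) → ms x w = 0}
  mul_mem' := by
    intro x y hx hy w hw
    rw [ms_mul, mul_eq_sum]
    refine Finset.sum_eq_zero fun k _ => ?_
    obtain ⟨a, ha, hai⟩ := hw
    rw [← List.take_append_drop k w, List.mem_append] at ha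
    rcases ha with h | h
    · rw [hx _ ⟨a, h, hai⟩, zero_mul]
    · rw [hy _ ⟨a, h, hai⟩, mul_zero]
  one_mem' := by
    intro w hw
    rw [ms_one]
    obtain ⟨a, ha, _⟩ := hw
    cases w with
    | nil => exact absurd ha List.not_mem_nil
    | cons b w => exact one_cons b w
  inv_mem' := by
    intro x hx w
    have key : ∀ (n : ℕ) (w : List ι), w.length = n → (∃ a ∈ w, a ≠ i) → ms x⁻¹ w = 0 := by
      intro n
      induction n using Nat.strong_induction_on with
      | _ n ih =>
        intro w hn hw
        have h1 : (ms x * ms x⁻¹) w = 0 := by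
          rw [ms_mul_inv]
          obtain ⟨a, ha, _⟩ := hw
          cases w with
          | nil => exact absurd ha List.not_mem_nil
          | cons b w => exact one_cons b w
        rw [mul_eq_sum, Finset.sum_eq_single 0] at h1
        · rw [List.take_zero, List.drop_zero, ms_nil, one_mul] at h1
          exact h1
        · intro k hk hk0
          rw [Finset.mem_range] at hk
          obtain ⟨a, ha, hai⟩ := hw
          rw [← List.take_append_drop k w, List.mem_append] at ha
          rcases ha with h | h
          · rw [hx _ ⟨a, h, hai⟩, zero_mul]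
          · rw [ih (w.drop k).length (by rw [List.length_drop]; omega) _ rfl ⟨a, h, hai⟩, mul_zero]
        · intro h
          exact absurd (Finset.mem_range.2 (Nat.succ_pos _)) h
    exact key w.length w rfl

theorem of_only (i : ι) : FreeGroup.of i ∈ only i := by
  intro w hw
  rw [ms_of]
  obtain ⟨a, ha, hai⟩ := hw
  classical
  cases w with
  | nil => exact absurd ha List.not_mem_nil
  | cons b w =>
    rw [add_apply, one_cons, X_cons, zero_add, if_neg]
    rintro ⟨rfl, rfl⟩
    rw [List.mem_singleton] at ha
    exact hai ha

/-- the coefficient at a letter is additive -/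
noncomputable def coef1 (a : ι) : FreeGroup ι →* Multiplicative ℤ where
  toFun x := Multiplicative.ofAdd (ms x [a])
  map_one' := by
    rw [ms_one, one_cons]
    rfl
  map_mul' x y := by
    rw [ms_mul, mul_cons, mul_nil, ms_nil, one_mul, ms_nil, mul_one, ← ofAdd_add, add_comm]
    rfl

theorem coef1_zpow (i a : ι) (e : ℤ) [Decidable (a = i)] :
    ms (FreeGroup.of i ^ e) [a] = if a = i then e else 0 := by
  have h1 : coef1 a (FreeGroup.of i ^ e) = coef1 a (FreeGroup.of i) ^ e := map_zpow _ _ _
  have h2 : ms (FreeGroup.of i ^ e) [a] = e * ms (FreeGroup.of i) [a] := by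
    have h3 := congrArg Multiplicative.toAdd h1
    rw [toAdd_zpow] at h3
    exact h3
  rw [h2, ms_of, add_apply, one_cons, zero_add]
  classical
  rw [X_cons]
  by_cases h : a = i
  · rw [if_pos ⟨h, rfl⟩, if_pos h, mul_one]
  · rw [if_neg (fun h' => h h'.1), if_neg h, mul_zero]

/-- multiplication by a syllable -/
theorem syl_mul (i : ι) (e : ℤ) (g : NC ι) (a : ι) (w : List ι)
    (hW : (a :: w).IsChain (fun a b => a ≠ b)) [Decidable (a = i)] :
    (ms (FreeGroup.of i ^ e) * g) (a :: w) = g (a :: w) + (if a = i then e else 0) * g w := by
  rw [mul_cons, ms_nil, one_mul, mul_eq_sum, Finset.sum_eq_single 0]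
  · rw [List.take_zero, List.drop_zero]
    have h1 : dl a (ms (FreeGroup.of i ^ e)) [] = ms (FreeGroup.of i ^ e) [a] := rfl
    rw [h1, coef1_zpow]
  · intro k hk hk0
    have h1 : dl a (ms (FreeGroup.of i ^ e)) (w.take k) = ms (FreeGroup.of i ^ e) (a :: w.take k) := rfl
    rw [h1]
    have h2 : FreeGroup.of i ^ e ∈ only i := Subgroup.zpow_mem _ (of_only i) e
    obtain ⟨k', rfl⟩ : ∃ k', k = k' + 1 := ⟨k - 1, by omega⟩
    cases w with
    | nil =>
      rw [Finset.mem_range, List.length_nil] at hk
      omega
    | cons b w =>
      have h3 : a ≠ b := by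
        rw [List.isChain_cons_cons] at hW
        exact hW.1
      rw [List.take_succ_cons]
      have h4 : ms (FreeGroup.of i ^ e) (a :: b :: w.take k') = 0 := by
        apply h2
        by_cases h : a = i
        · exact ⟨b, by simp, fun h' => h3 (h.trans h'.symm)⟩
        · exact ⟨a, by simp, h⟩
      rw [h4, zero_mul]
  · intro h
    exact absurd (Finset.mem_range.2 (Nat.succ_pos _)) h

theorem T_COEF : S_COEF := by
  intro ι L
  classical
  induction L with
  | nil =>
    intro W _
    have h1 : ms (syl ([] : List (ι × ℤ))) = 1 := by
      unfold syl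
      rw [List.map_nil, List.prod_nil, ms_one]
    rw [h1]
    refine ⟨?_, ?_, ?_⟩
    · intro h
      cases W with
      | nil => simp at h
      | cons a w => exact one_cons a w
    · intro h
      rw [h]
      rfl
    · intro h h'
      exact absurd (List.length_eq_zero_iff.1 h) h'
  | cons p L1 ih =>
    obtain ⟨i, e⟩ := p
    intro W hW
    have h1 : ms (syl ((i, e) :: L1)) = ms (FreeGroup.of i ^ e) * ms (syl L1) := by
      unfold syl
      rw [List.map_cons, List.prod_cons, ms_mul]
    rw [h1]
    cases W with
    | nil =>
      refine ⟨fun h => ?_, fun h => ?_, fun h => ?_⟩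
      · simp at h
      · simp at h
      · simp at h
    | cons a w =>
      have hw : w.IsChain (fun a b => a ≠ b) := List.IsChain.of_cons hW
      obtain ⟨i1, i2, i3⟩ := ih w hw
      obtain ⟨j1, _, _⟩ := ih (a :: w) hW
      rw [syl_mul i e _ a w hW]
      refine ⟨fun h => ?_, fun h => ?_, fun h h' => ?_⟩
      · rw [List.length_cons, List.length_cons] at h
        rw [j1 (by rw [List.length_cons]; omega), i1 (by omega), mul_zero, add_zero]
      · rw [List.map_cons, List.cons.injEq] at h
        obtain ⟨ha, hw'⟩ := h
        have hl : w.length = L1.length := by rw [hw', List.length_map]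
        rw [j1 (by rw [List.length_cons]; omega), i2 hw', if_pos ha, zero_add, List.map_cons,
          List.prod_cons]
      · rw [List.length_cons, List.length_cons] at h
        rw [j1 (by rw [List.length_cons]; omega), zero_add]
        by_cases ha : a = i
        · have hw' : w ≠ L1.map Prod.fst := by
            intro hw'
            apply h'
            rw [List.map_cons, ha, hw']
          rw [i3 (by omega) hw', mul_zero]
        · rw [if_neg ha, zero_mul]

end Pool.Agent.H675.AB
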